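import Pool.Agent.Q81.VL.TF
import Pool.Agent.Q182.VL.Bas

/-! Project VL, job VL-6, without a hypothesis. -/

namespace Pool.Agent.Q81.VL

theorem stmTF : Pool.Agent.Q85.VL.StmTF := tf Pool.Agent.Q182.VL.stmBas

end Pool.Agent.Q81.VL
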