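import Pool.Agent.Q85.VL.Defs
import Pool.Agent.Q67.VD.Alg

/-!
Project VL (helper85), job VL-6: two families of curves. The proof uses the statement VL-1
(`StmBas`) as a hypothesis `hB`.
-/

set_option autoImplicit false

open MeasureTheory Set Metric
open scoped ContDiff
open H459R3.NS Pool.Agent.W268.NS Pool.Agent.Q67.VD

namespace Pool.Agent.Q81.VL

open Pool.Agent.Q85.CC Pool.Agent.Q85.CL Pool.Agent.Q151.CC Pool.Agent.Q85.VL

/-- The basic facts. -/
structure Bas : Prop where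
  sd : ∀ s, HasDerivAt stp (stp' s) s
  sc : ContDiff ℝ 1 stp
  sc' : Continuous stp'
  mono : Monotone stp
  s0 : ∀ s, 0 ≤ stp s
  s1 : ∀ s, stp s ≤ 1
  d0 : ∀ s, 0 ≤ stp' s
  d2 : ∀ s, stp' s ≤ 2
  lo : ∀ s, s ≤ 0 → stp s = 0
  hi : ∀ s, 1 ≤ s → stp s = 1
  dn : ∀ s, stp' s ≠ 0 → 0 < s ∧ s < 1
  pn : ∀ s, stp s ≠ 0 → 0 < s
  qn : ∀ s, stp s ≠ 1 → s < 1
  gc : ∀ (x : V) (ρ : ℝ), 0 < ρ → ContDiff ℝ ∞ (ds x ρ)
  gl : ∀ (x : V) (ρ : ℝ), 0 < ρ → ∀ y, len (y - x) ≤ ds x ρ y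
  gu : ∀ (x : V) (ρ : ℝ), 0 < ρ → ∀ y, ds x ρ y ≤ len (y - x) + ρ
  gn : ∀ (x : V) (ρ : ℝ), 0 < ρ → ∀ y, ‖y - x‖ ≤ ds x ρ y
  gb : ∀ (x : V) (ρ : ℝ), 0 < ρ → ∀ y, ‖y - x‖ ≤ ρ → ds x ρ y ≤ 2 * ρ
  gi : ∀ (x : V) (ρ : ℝ), 0 < ρ → ∀ y z, |ds x ρ y - ds x ρ z| ≤ len (y - z)
  gd : ∀ (x : V) (ρ : ℝ), 0 < ρ → ∀ y n, |fderiv ℝ (ds x ρ) y n| ≤ len n

lemma bas (hB : StmBas) : Bas := by
  obtain ⟨h1, h2, h3, h4, h5, h6, h7, h8, h9, h10, h11⟩ := hB
  exact ⟨h1, h2, h3, h4, fun s => (h5 s).1, fun s => (h5 s).2.1, fun s => (h5 s).2.2.1,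
    fun s => (h5 s).2.2.2, h6, h7, h8, h9, h10, fun x ρ h => (h11 x ρ h).1,
    fun x ρ h => (h11 x ρ h).2.1, fun x ρ h => (h11 x ρ h).2.2.2.1,
    fun x ρ h => (h11 x ρ h).2.2.2.2.1, fun x ρ h => (h11 x ρ h).2.2.2.2.2.1,
    fun x ρ h => (h11 x ρ h).2.2.2.2.2.2.1, fun x ρ h => (h11 x ρ h).2.2.2.2.2.2.2⟩

lemma len_neg' (a : V) : len (-a) = len a := by
  have h := len_smul (-1) a
  rw [neg_one_smul] at h
  rw [h]
  simp

lemma len_two (a : V) {b : ℝ} (hb : 0 ≤ b) (h : ‖a‖ ≤ b) : len a ≤ 2 * b := by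
  refine len_le_of_sq (by linarith) ?_
  have h1 : ∀ i, a i ^ 2 ≤ b ^ 2 := fun i => by
    have h2 : |a i| ≤ b := by
      have := norm_le_pi_norm a i
      rw [Real.norm_eq_abs] at this
      exact this.trans h
    rw [← sq_abs]
    exact pow_le_pow_left₀ (abs_nonneg _) h2 2
  nlinarith [h1 0, h1 1, h1 2, sq_nonneg b]

/-! ### derivatives -/

lemma comp_c1 (B : Bas) {φ : V → ℝ} (hφ : ContDiff ℝ 1 φ) (a b : ℝ) :
    ContDiff ℝ 1 (fun y => stp ((φ y + a) / b)) :=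
  B.sc.comp ((hφ.add contDiff_const).div_const b)

lemma comp_fd (B : Bas) {φ : V → ℝ} (hφ : ContDiff ℝ 1 φ) (a b : ℝ) (y n : V) :
    fderiv ℝ (fun y => stp ((φ y + a) / b)) y n
      = stp' ((φ y + a) / b) / b * fderiv ℝ φ y n := by
  have h1 : HasFDerivAt φ (fderiv ℝ φ y) y := (hφ.differentiable one_ne_zero y).hasFDerivAt
  have h2 : HasFDerivAt (fun y => (φ y + a) / b) (b⁻¹ • fderiv ℝ φ y) y := by
    have h3 := (h1.add_const a).const_mul b⁻¹
    refine h3.congr_of_eventuallyEq (Filter.Eventually.of_forall fun w => ?_)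
    show (φ w + a) / b = b⁻¹ * (φ w + a)
    rw [div_eq_inv_mul]
  have h4 := (B.sd ((φ y + a) / b)).comp_hasFDerivAt y h2
  have h5 : fderiv ℝ (fun y => stp ((φ y + a) / b)) y
      = stp' ((φ y + a) / b) • (b⁻¹ • fderiv ℝ φ y) := h4.fderiv
  rw [h5]
  show stp' ((φ y + a) / b) * (b⁻¹ * fderiv ℝ φ y n) = _
  rw [div_eq_mul_inv (stp' _)]
  ring

lemma U_c1 (B : Bas) {g : V → ℝ} (hg : ContDiff ℝ 1 g) (c : ℝ) {ρ : ℝ} (hρ : 0 < ρ) (x : V) :
    ContDiff ℝ 1 (fun y => g y - g x - c * ds x ρ y) :=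
  (hg.sub contDiff_const).sub (contDiff_const.mul ((B.gc x ρ hρ).of_le (by exact_mod_cast le_top)))

lemma U_fd (B : Bas) {g : V → ℝ} (hg : ContDiff ℝ 1 g) (c : ℝ) {ρ : ℝ} (hρ : 0 < ρ) (x y n : V) :
    fderiv ℝ (fun y => g y - g x - c * ds x ρ y) y n
      = fderiv ℝ g y n - c * fderiv ℝ (ds x ρ) y n := by
  have h1 : HasFDerivAt g (fderiv ℝ g y) y := (hg.differentiable one_ne_zero y).hasFDerivAt
  have h2 : HasFDerivAt (ds x ρ) (fderiv ℝ (ds x ρ) y) y :=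
    ((B.gc x ρ hρ).differentiable (by simp) y).hasFDerivAt
  have h3 : HasFDerivAt (fun y => g y - g x - c * ds x ρ y)
      (fderiv ℝ g y - c • fderiv ℝ (ds x ρ) y) y := (h1.sub_const (g x)).sub (h2.const_mul c)
  rw [h3.fderiv]
  rfl

/-- The field increases the function `g - c |y - x|`. -/
lemma U_lo (B : Bas) {κ R : ℝ} {x : V} {f m : V → ℝ} {W : V → V} {g : V → ℝ}
    (h : LF κ R x f m W g) {c : ℝ} (hc : 0 ≤ c) {ρ : ℝ} (hρ : 0 < ρ) (x' : V) {y : V}
    (hy : y ∈ closedBall x R) :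
    (κ - c) * f y ≤ fderiv ℝ (fun y => g y - g x' - c * ds x' ρ y) y (W y) + m y := by
  rw [U_fd B h.gs c hρ]
  have h1 := h.lo y hy
  have h2 := h.up y hy
  have h3 : fderiv ℝ (ds x' ρ) y (W y) ≤ f y :=
    (le_abs_self _).trans ((B.gd x' ρ hρ y (W y)).trans h2)
  nlinarith [mul_le_mul_of_nonneg_left h3 hc]

lemma f_nonneg {κ R : ℝ} {x : V} {f m : V → ℝ} {W : V → V} {g : V → ℝ}
    (h : LF κ R x f m W g) {y : V} (hy : y ∈ closedBall x R) : 0 ≤ f y :=
  (len_nonneg _).trans (h.up y hy)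

lemma cont_fd {φ : V → ℝ} {W : V → V} (hφ : ContDiff ℝ 1 φ) (hW : Continuous W) :
    Continuous (fun y => fderiv ℝ φ y (W y)) :=
  (hφ.continuous_fderiv one_ne_zero).clm_apply hW

/-! ### the first family: comparison of the scales -/

section one

variable {κ ρ R r : ℝ} {x : V} {f m : V → ℝ} {W : V → V} {g : V → ℝ}

lemma uu_c1 (B : Bas) (h : LF κ R x f m W g) (hρ : 0 < ρ) : ContDiff ℝ 1 (uu κ ρ g x) :=
  U_c1 B h.gs (κ / 2) hρ x

lemma ww_c1 (B : Bas) (h : LF κ R x f m W g) (hρ : 0 < ρ) (x' : V) :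
    ContDiff ℝ 1 (ww κ ρ g x') :=
  U_c1 B h.gs (3 * κ / 4) hρ x'

lemma TT_eq (κ ρ : ℝ) (g : V → ℝ) (x : V) (r : ℝ) : TT κ ρ g x r
    = fun y => stp ((ww κ ρ g x y + κ * r / 8) / (κ * r / 16)) := rfl

lemma PS_eq (κ ρ : ℝ) (g : V → ℝ) (x : V) (r : ℝ) : PS κ ρ g x r
    = fun y => stp ((uu κ ρ g x y + -(κ * r / 64)) / (κ * r / 64)) := by
  funext y
  rw [PS, sub_eq_add_neg]

lemma TT_c1 (B : Bas) (h : LF κ R x f m W g) (hρ : 0 < ρ) (r : ℝ) :
    ContDiff ℝ 1 (TT κ ρ g x r) := by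
  rw [TT_eq]
  exact comp_c1 B (ww_c1 B h hρ x) _ _

lemma PS_c1 (B : Bas) (h : LF κ R x f m W g) (hρ : 0 < ρ) (r : ℝ) :
    ContDiff ℝ 1 (PS κ ρ g x r) := by
  rw [PS_eq]
  exact comp_c1 B (uu_c1 B h hρ) _ _

/-- the density of the levels of `Ψ_r` -/
noncomputable def ps (κ ρ : ℝ) (g : V → ℝ) (x : V) (r : ℝ) (y : V) : ℝ :=
  stp' ((uu κ ρ g x y - κ * r / 64) / (κ * r / 64)) / (κ * r / 64)

/-- the density of the levels of `Θ_r` -/
noncomputable def ts (κ ρ : ℝ) (g : V → ℝ) (x : V) (r : ℝ) (y : V) : ℝ :=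
  stp' ((ww κ ρ g x y + κ * r / 8) / (κ * r / 16)) / (κ * r / 16)

lemma TT_fd (B : Bas) (h : LF κ R x f m W g) (hρ : 0 < ρ) (r : ℝ) (y n : V) :
    fderiv ℝ (TT κ ρ g x r) y n = ts κ ρ g x r y * fderiv ℝ (ww κ ρ g x) y n := by
  rw [TT_eq, comp_fd B (ww_c1 B h hρ x)]
  rfl

lemma PS_fd (B : Bas) (h : LF κ R x f m W g) (hρ : 0 < ρ) (r : ℝ) (y n : V) :
    fderiv ℝ (PS κ ρ g x r) y n = ps κ ρ g x r y * fderiv ℝ (uu κ ρ g x) y n := by
  rw [PS_eq, comp_fd B (uu_c1 B h hρ), ps, sub_eq_add_neg]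

lemma ps_cont (B : Bas) (h : LF κ R x f m W g) (hρ : 0 < ρ) (r : ℝ) :
    Continuous (ps κ ρ g x r) :=
  (B.sc'.comp (((uu_c1 B h hρ).continuous.sub continuous_const).div_const _)).div_const _

lemma ts_cont (B : Bas) (h : LF κ R x f m W g) (hρ : 0 < ρ) (r : ℝ) :
    Continuous (ts κ ρ g x r) :=
  (B.sc'.comp (((ww_c1 B h hρ x).continuous.add continuous_const).div_const _)).div_const _

lemma ps_nonneg (B : Bas) (hκ : 0 < κ) (hr : 0 < r) (y : V) : 0 ≤ ps κ ρ g x r y :=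
  div_nonneg (B.d0 _) (by positivity)

lemma ts_nonneg (B : Bas) (hκ : 0 < κ) (hr : 0 < r) (y : V) : 0 ≤ ts κ ρ g x r y :=
  div_nonneg (B.d0 _) (by positivity)

lemma ps_le (B : Bas) (hκ : 0 < κ) (hr : 0 < r) (y : V) :
    ps κ ρ g x r y ≤ 128 / (κ * r) := by
  have h1 : 0 < κ * r := mul_pos hκ hr
  have h2 : ps κ ρ g x r y ≤ 2 / (κ * r / 64) :=
    div_le_div_of_nonneg_right (B.d2 _) (by positivity)
  refine h2.trans (le_of_eq ?_)
  field_simp
  norm_num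

lemma ts_le (B : Bas) (hκ : 0 < κ) (hr : 0 < r) (y : V) :
    ts κ ρ g x r y ≤ 32 / (κ * r) := by
  have h1 : 0 < κ * r := mul_pos hκ hr
  have h2 : ts κ ρ g x r y ≤ 2 / (κ * r / 16) :=
    div_le_div_of_nonneg_right (B.d2 _) (by positivity)
  refine h2.trans (le_of_eq ?_)
  field_simp
  norm_num

lemma uw (κ ρ : ℝ) (g : V → ℝ) (x y : V) :
    ww κ ρ g x y = uu κ ρ g x y - κ / 4 * ds x ρ y := by
  unfold ww uu
  ring

/-- the support of the first test function -/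
lemma near (B : Bas) (hκ : 0 < κ) (hρ : 0 < ρ) {y : V}
    (h1 : -(κ * r / 8) < ww κ ρ g x y) (h2 : uu κ ρ g x y < κ * r / 32) :
    y ∈ closedBall x (5 * r / 8) := by
  rw [mem_closedBall, dist_eq_norm]
  refine (B.gn x ρ hρ y).trans ?_
  rw [uw] at h1
  by_contra hc
  push Not at hc
  nlinarith [mul_lt_mul_of_pos_left hc hκ]

lemma TT_ne (B : Bas) (hκ : 0 < κ) (hr : 0 < r) {y : V} (h : TT κ ρ g x r y ≠ 0) :
    -(κ * r / 8) < ww κ ρ g x y := by
  have h1 := B.pn _ h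
  have h2 : 0 < κ * r / 16 := by positivity
  rw [div_pos_iff_of_pos_right h2] at h1
  linarith

lemma ts_ne (B : Bas) (hκ : 0 < κ) (hr : 0 < r) {y : V} (h : ts κ ρ g x r y ≠ 0) :
    -(κ * r / 8) < ww κ ρ g x y := by
  have h2 : 0 < κ * r / 16 := by positivity
  have h1 := (B.dn _ fun h0 => h (by rw [ts, h0, zero_div])).1
  rw [div_pos_iff_of_pos_right h2] at h1
  linarith

lemma PS_ne (B : Bas) (hκ : 0 < κ) (hr : 0 < r) {y : V} (h : PS κ ρ g x r y ≠ 1) :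
    uu κ ρ g x y < κ * r / 32 := by
  have h1 := B.qn _ h
  have h2 : 0 < κ * r / 64 := by positivity
  rw [div_lt_one h2] at h1
  linarith

lemma ps_ne (B : Bas) (hκ : 0 < κ) (hr : 0 < r) {y : V} (h : ps κ ρ g x r y ≠ 0) :
    uu κ ρ g x y < κ * r / 32 := by
  have h2 : 0 < κ * r / 64 := by positivity
  have h1 := (B.dn _ fun h0 => h (by rw [ps, h0, zero_div])).2
  rw [div_lt_one h2] at h1
  linarith

lemma PS_mono (B : Bas) (hκ : 0 < κ) (hr : 0 < r) {r' : ℝ} (hr' : 0 < r') (hrr : r' ≤ r) (y : V) :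
    PS κ ρ g x r y ≤ PS κ ρ g x r' y := by
  have h1 : 0 < κ * r' / 64 := by positivity
  have h2 : 0 < κ * r / 64 := by positivity
  by_cases h : 0 < uu κ ρ g x y
  · refine B.mono ?_
    rw [sub_div, sub_div, div_self h1.ne', div_self h2.ne']
    refine sub_le_sub_right ?_ _
    refine div_le_div_of_nonneg_left h.le h1 ?_
    have := mul_le_mul_of_nonneg_left hrr hκ.le
    linarith
  · have h3 : PS κ ρ g x r y = 0 := by
      refine B.lo _ ?_
      refine div_nonpos_of_nonpos_of_nonneg ?_ h2.le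
      push Not at h
      linarith
    rw [h3]
    exact B.s0 _

lemma TT_mono (B : Bas) (hκ : 0 < κ) (hr : 0 < r) {r' : ℝ} (hr' : 0 < r') (hrr : r' ≤ r) (y : V) :
    TT κ ρ g x r' y ≤ TT κ ρ g x r y := by
  have h1 : 0 < κ * r' / 16 := by positivity
  have h2 : 0 < κ * r / 16 := by positivity
  have e1 : κ * r' / 8 = 2 * (κ * r' / 16) := by ring
  have e2 : κ * r / 8 = 2 * (κ * r / 16) := by ring
  by_cases h : ww κ ρ g x y < 0
  · refine B.mono ?_
    have q1 : κ * r' / 8 / (κ * r' / 16) = 2 := by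
      rw [e1, mul_div_cancel_right₀ _ h1.ne']
    have q2 : κ * r / 8 / (κ * r / 16) = 2 := by
      rw [e2, mul_div_cancel_right₀ _ h2.ne']
    rw [add_div, add_div, q1, q2]
    have h4 := mul_le_mul_of_nonneg_left hrr hκ.le
    have h5 : (-ww κ ρ g x y) / (κ * r / 16) ≤ (-ww κ ρ g x y) / (κ * r' / 16) :=
      div_le_div_of_nonneg_left (by linarith) h1 (by linarith)
    rw [neg_div, neg_div] at h5
    linarith
  · have h3 : TT κ ρ g x r y = 1 := by
      refine B.hi _ ?_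
      rw [one_le_div h2]
      push Not at h
      linarith
    rw [h3]
    exact B.s1 _

/-- the first test function -/
noncomputable def F1 (κ ρ : ℝ) (g : V → ℝ) (x : V) (r r' : ℝ) (y : V) : ℝ :=
  TT κ ρ g x r y * (PS κ ρ g x r' y - PS κ ρ g x r y)

lemma F1_near (B : Bas) (hκ : 0 < κ) (hρ : 0 < ρ) (hr : 0 < r) {r' : ℝ} (hr' : 0 < r')
    (hrr : r' ≤ r) {y : V} (h1 : -(κ * r / 8) < ww κ ρ g x y)
    (h2 : PS κ ρ g x r' y - PS κ ρ g x r y ≠ 0) : y ∈ closedBall x (5 * r / 8) := by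
  refine near B hκ hρ h1 (PS_ne B hκ hr fun h0 => h2 ?_)
  have h3 := PS_mono (κ := κ) (ρ := ρ) (x := x) (g := g) B hκ hr hr' hrr y
  have h4 : PS κ ρ g x r' y ≤ 1 := B.s1 _
  rw [h0] at h3 ⊢
  linarith

lemma F1_c1 (B : Bas) (h : LF κ R x f m W g) (hρ : 0 < ρ) (r r' : ℝ) :
    ContDiff ℝ 1 (F1 κ ρ g x r r') :=
  (TT_c1 B h hρ r).mul ((PS_c1 B h hρ r').sub (PS_c1 B h hρ r))

lemma F1_int (B : Bas) (h : LF κ R x f m W g) (hκ : 0 < κ) (hρ : 0 < ρ) (hr : 0 < r)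
    {r' : ℝ} (hr' : 0 < r') (hrr : r' ≤ r) (hR : r ≤ R) :
    ∫ y in closedBall x R, fderiv ℝ (F1 κ ρ g x r r') y (W y) = 0 := by
  refine h.wd.div _ (F1_c1 B h hρ r r') ?_
  refine closure_minimal (fun y hy => ?_) isClosed_closedBall
  have h1 : TT κ ρ g x r y ≠ 0 := fun h0 => hy (by
    show TT κ ρ g x r y * _ = 0
    rw [h0, zero_mul])
  have h2 : PS κ ρ g x r' y - PS κ ρ g x r y ≠ 0 := fun h0 => hy (by
    show _ * (PS κ ρ g x r' y - PS κ ρ g x r y) = 0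
    rw [h0, mul_zero])
  exact closedBall_subset_closedBall (by linarith)
    (F1_near B hκ hρ hr hr' hrr (TT_ne B hκ hr h1) h2)

lemma F1_fd (B : Bas) (h : LF κ R x f m W g) (hρ : 0 < ρ) (r r' : ℝ) (y n : V) :
    fderiv ℝ (F1 κ ρ g x r r') y n
      = TT κ ρ g x r y * ((ps κ ρ g x r' y - ps κ ρ g x r y) * fderiv ℝ (uu κ ρ g x) y n)
        + (PS κ ρ g x r' y - PS κ ρ g x r y) * (ts κ ρ g x r y * fderiv ℝ (ww κ ρ g x) y n) := by
  have h1 : HasFDerivAt (TT κ ρ g x r) (fderiv ℝ (TT κ ρ g x r) y) y :=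
    ((TT_c1 B h hρ r).differentiable one_ne_zero y).hasFDerivAt
  have h2 : ∀ r, HasFDerivAt (PS κ ρ g x r) (fderiv ℝ (PS κ ρ g x r) y) y := fun r =>
    ((PS_c1 B h hρ r).differentiable one_ne_zero y).hasFDerivAt
  have h3 : HasFDerivAt (F1 κ ρ g x r r') _ y := h1.mul ((h2 r').sub (h2 r))
  rw [h3.fderiv]
  show TT κ ρ g x r y * (fderiv ℝ (PS κ ρ g x r') y n - fderiv ℝ (PS κ ρ g x r) y n)
    + (PS κ ρ g x r' y - PS κ ρ g x r y) * fderiv ℝ (TT κ ρ g x r) y n = _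
  rw [TT_fd B h hρ, PS_fd B h hρ, PS_fd B h hρ]
  ring

/-- the rate of the flux -/
noncomputable def DD (κ ρ : ℝ) (g : V → ℝ) (x : V) (W : V → V) (m : V → ℝ) (y : V) : ℝ :=
  fderiv ℝ (uu κ ρ g x) y (W y) + m y

lemma pr_eq (κ ρ : ℝ) (g : V → ℝ) (x : V) (W : V → V) (m : V → ℝ) (r : ℝ) (y : V) :
    pr κ ρ g x W m r y = TT κ ρ g x r y * (ps κ ρ g x r y * DD κ ρ g x W m y) := rfl

lemma DD_nonneg (B : Bas) (h : LF κ R x f m W g) (hκ : 0 < κ) (hρ : 0 < ρ) {y : V}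
    (hy : y ∈ closedBall x R) : 0 ≤ DD κ ρ g x W m y := by
  have h1 := U_lo B h (c := κ / 2) (by linarith) hρ x hy
  have h2 := f_nonneg h hy
  refine le_trans ?_ h1
  have : 0 < κ - κ / 2 := by linarith
  positivity

/-- the coefficient of the remainder -/
noncomputable def k1 (κ ρ : ℝ) (g : V → ℝ) (x : V) (r r' : ℝ) (y : V) : ℝ :=
  TT κ ρ g x r y * ps κ ρ g x r' y
    + (PS κ ρ g x r' y - PS κ ρ g x r y) * ts κ ρ g x r y

lemma point1 (B : Bas) (h : LF κ R x f m W g) (hκ : 0 < κ) (hρ : 0 < ρ) (hr : 0 < r)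
    {r' : ℝ} (hr' : 0 < r') (hrr : r' ≤ r) {y : V} (hy : y ∈ closedBall x R) :
    (TT κ ρ g x r y - TT κ ρ g x r' y) * ps κ ρ g x r' y * DD κ ρ g x W m y
        - k1 κ ρ g x r r' y * m y - fderiv ℝ (F1 κ ρ g x r r') y (W y)
      ≤ pr κ ρ g x W m r y - pr κ ρ g x W m r' y := by
  rw [F1_fd B h hρ, pr_eq, pr_eq, k1]
  have h1 : (κ - 3 * κ / 4) * f y ≤ fderiv ℝ (ww κ ρ g x) y (W y) + m y :=
    U_lo B h (c := 3 * κ / 4) (by linarith) hρ x hy
  have h2 := f_nonneg h hy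
  have h3 : 0 ≤ fderiv ℝ (ww κ ρ g x) y (W y) + m y := by
    refine le_trans ?_ h1
    have : 0 < κ - 3 * κ / 4 := by linarith
    positivity
  have e1 : fderiv ℝ (uu κ ρ g x) y (W y) = DD κ ρ g x W m y - m y := by
    unfold DD
    ring
  rw [e1]
  have h4 : 0 ≤ TT κ ρ g x r y * (ps κ ρ g x r y * m y) :=
    mul_nonneg (B.s0 _) (mul_nonneg (ps_nonneg B hκ hr y) (h.m0 y))
  have h5 := PS_mono (κ := κ) (ρ := ρ) (x := x) (g := g) B hκ hr hr' hrr y
  have h6 : 0 ≤ (PS κ ρ g x r' y - PS κ ρ g x r y) *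
      (ts κ ρ g x r y * (fderiv ℝ (ww κ ρ g x) y (W y) + m y)) :=
    mul_nonneg (by linarith) (mul_nonneg (ts_nonneg B hκ hr y) h3)
  nlinarith [h4, h6]

lemma k1_cont (B : Bas) (h : LF κ R x f m W g) (hρ : 0 < ρ) (r r' : ℝ) :
    Continuous (k1 κ ρ g x r r') :=
  ((TT_c1 B h hρ r).continuous.mul (ps_cont B h hρ r')).add
    (((PS_c1 B h hρ r').continuous.sub (PS_c1 B h hρ r).continuous).mul (ts_cont B h hρ r))

lemma k1_nonneg (B : Bas) (hκ : 0 < κ) (hr : 0 < r) {r' : ℝ} (hr' : 0 < r') (hrr : r' ≤ r)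
    (y : V) : 0 ≤ k1 κ ρ g x r r' y := by
  have h5 := PS_mono (κ := κ) (ρ := ρ) (x := x) (g := g) B hκ hr hr' hrr y
  exact add_nonneg (mul_nonneg (B.s0 _) (ps_nonneg B hκ hr' y))
    (mul_nonneg (by linarith) (ts_nonneg B hκ hr y))

lemma k1_le (B : Bas) (hκ : 0 < κ) (hr : 0 < r) {r' : ℝ} (hr' : 0 < r') (hrr : r' ≤ r)
    (y : V) : k1 κ ρ g x r r' y ≤ 128 / (κ * r') + 32 / (κ * r) := by
  have h5 := PS_mono (κ := κ) (ρ := ρ) (x := x) (g := g) B hκ hr hr' hrr y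
  have h6 : PS κ ρ g x r' y ≤ 1 := B.s1 _
  have h7 : 0 ≤ PS κ ρ g x r y := B.s0 _
  have h8 : TT κ ρ g x r y ≤ 1 := B.s1 _
  refine add_le_add ?_ ?_
  · exact (mul_le_of_le_one_left (ps_nonneg B hκ hr' y) h8).trans (ps_le B hκ hr' y)
  · exact (mul_le_of_le_one_left (ts_nonneg B hκ hr y) (by linarith)).trans (ts_le B hκ hr y)

lemma k1_zero (B : Bas) (hκ : 0 < κ) (hρ : 0 < ρ) (hr : 0 < r) {r' : ℝ} (hr' : 0 < r')
    (hrr : r' ≤ r) {y : V} (hy : y ∉ closedBall x r) : k1 κ ρ g x r r' y = 0 := by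
  have h0 : y ∉ closedBall x (5 * r / 8) := fun h =>
    hy (closedBall_subset_closedBall (by linarith) h)
  have h1 : TT κ ρ g x r y * ps κ ρ g x r' y = 0 := by
    by_contra hc
    refine h0 (near B hκ hρ (TT_ne B hκ hr (left_ne_zero_of_mul hc)) ?_)
    refine (ps_ne B hκ hr' (right_ne_zero_of_mul hc)).trans_le ?_
    have := mul_le_mul_of_nonneg_left hrr hκ.le
    linarith
  have h2 : (PS κ ρ g x r' y - PS κ ρ g x r y) * ts κ ρ g x r y = 0 := by
    by_contra hc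
    exact h0 (F1_near B hκ hρ hr hr' hrr (ts_ne B hκ hr (right_ne_zero_of_mul hc))
      (left_ne_zero_of_mul hc))
  rw [k1, h1, h2, add_zero]

end one

/-! ### the second family: the curves near the point `z` -/

section two

/-- the cut-off function of the second family -/
noncomputable def HH (κ b : ℝ) (g : V → ℝ) (z : V) (y : V) : ℝ :=
  stp ((ww κ b g z y + 32 * b) / (64 * b))

/-- its derivative -/
noncomputable def hs (κ b : ℝ) (g : V → ℝ) (z : V) (y : V) : ℝ :=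
  stp' ((ww κ b g z y + 32 * b) / (64 * b)) / (64 * b)

/-- the second test function -/
noncomputable def F2 (κ ρ b : ℝ) (g : V → ℝ) (x z : V) (r' : ℝ) (y : V) : ℝ :=
  HH κ b g z y * (1 - PS κ ρ g x r' y)

variable {κ ρ R r s b : ℝ} {x z : V} {f m : V → ℝ} {W : V → V} {g : V → ℝ}

/-- the geometry of the support of the second test function -/
lemma geo (B : Bas) (hκ : 0 < κ) (hρ : 0 < ρ) (hr : 0 < r)
    (hρr : ρ ≤ r / 64) (hs1 : r / 64 ≤ s) (hs2 : s ≤ r / 32) (hz : ‖z - x‖ = s)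
    (hu : uu κ ρ g x z = -(4 * (κ / 65536) * r)) (hb : b = κ / 524288 * r) {y : V}
    (h1 : -(32 * b) < ww κ b g z y) (h2 : uu κ ρ g x y < κ * (r / 256) / 32) :
    ‖y - z‖ ≤ r / 1024 ∧ ‖y - x‖ ≤ r ∧ ww κ ρ g x y ≤ -(κ * (r / 256) / 8) ∧
      -(κ * r / 16) ≤ ww κ ρ g x y := by
  have hb0 : 0 < b := by rw [hb]; positivity
  have hκr : 0 < κ * r := mul_pos hκ hr
  have g1 := B.gi x ρ hρ y z
  have g2 := B.gl z b hb0 y
  have g3 := B.gn z b hb0 y
  have g4 := (abs_le.1 g1).2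
  have e1 : uu κ ρ g x y - uu κ ρ g x z
      = g y - g z - κ / 2 * (ds x ρ y - ds x ρ z) := by
    unfold uu
    ring
  have e2 : ww κ b g z y = g y - g z - 3 * κ / 4 * ds z b y := rfl
  have g5 : κ / 2 * (ds x ρ y - ds x ρ z) ≤ κ / 2 * ds z b y :=
    mul_le_mul_of_nonneg_left (g4.trans g2) (by linarith)
  -- the main inequality
  have g6 : ww κ b g z y + κ / 4 * ds z b y ≤ uu κ ρ g x y - uu κ ρ g x z := by
    rw [e1, e2]
    linarith
  have h1' : -(32 * (κ / 524288 * r)) < ww κ b g z y := by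
    rw [← hb]
    exact h1
  have g7 : κ * ds z b y < κ * (r / 1024) := by
    rw [hu] at g6
    nlinarith
  have g8 : ds z b y < r / 1024 := lt_of_mul_lt_mul_left g7 hκ.le
  have g9 : ‖y - z‖ ≤ r / 1024 := g3.trans g8.le
  have g10 : ‖y - x‖ ≤ s + r / 1024 := by
    have : y - x = (y - z) + (z - x) := by abel
    rw [this]
    refine (norm_add_le _ _).trans ?_
    rw [hz]
    linarith
  have g11 : s - r / 1024 ≤ ‖y - x‖ := by
    have : z - x = (y - x) - (y - z) := by abel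
    have h3 : ‖z - x‖ ≤ ‖y - x‖ + ‖y - z‖ := by
      rw [this]
      exact norm_sub_le _ _
    rw [hz] at h3
    linarith
  have g12 : s - r / 1024 ≤ ds x ρ y := g11.trans (B.gn x ρ hρ y)
  have g13 : ds x ρ y ≤ 2 * (s + r / 1024) + ρ := by
    refine (B.gu x ρ hρ y).trans ?_
    have := len_two (y - x) (by linarith) g10
    linarith
  have g14 : 0 ≤ ds z b y := (norm_nonneg _).trans g3
  refine ⟨g9, by linarith, ?_, ?_⟩
  · rw [uw]
    have g15 : κ * (15 * r / 1024) ≤ κ * ds x ρ y :=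
      mul_le_mul_of_nonneg_left (by linarith) hκ.le
    nlinarith
  · rw [uw]
    have g15 : κ * ds x ρ y ≤ κ * (82 * r / 1024) :=
      mul_le_mul_of_nonneg_left (by linarith) hκ.le
    have g16 : 0 ≤ κ / 4 * ds z b y := by positivity
    rw [hu] at g6
    have h1' : -(32 * (κ / 524288 * r)) < ww κ b g z y := by
      rw [← hb]
      exact h1
    nlinarith

lemma HH_ne (B : Bas) (hb0 : 0 < b) {y : V} (h : HH κ b g z y ≠ 0) :
    -(32 * b) < ww κ b g z y := by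
  have h1 := B.pn _ h
  have h2 : 0 < 64 * b := by positivity
  rw [div_pos_iff_of_pos_right h2] at h1
  linarith

lemma hs_ne (B : Bas) (hb0 : 0 < b) {y : V} (h : hs κ b g z y ≠ 0) :
    -(32 * b) < ww κ b g z y := by
  have h2 : 0 < 64 * b := by positivity
  have h1 := (B.dn _ fun h0 => h (by rw [hs, h0, zero_div])).1
  rw [div_pos_iff_of_pos_right h2] at h1
  linarith

lemma HH_c1 (B : Bas) (h : LF κ R x f m W g) (hb0 : 0 < b) (z : V) :
    ContDiff ℝ 1 (HH κ b g z) :=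
  comp_c1 B (ww_c1 B h hb0 z) _ _

lemma hs_cont (B : Bas) (h : LF κ R x f m W g) (hb0 : 0 < b) (z : V) :
    Continuous (hs κ b g z) :=
  (B.sc'.comp (((ww_c1 B h hb0 z).continuous.add continuous_const).div_const _)).div_const _

lemma hs_nonneg (B : Bas) (hb0 : 0 < b) (y : V) : 0 ≤ hs κ b g z y :=
  div_nonneg (B.d0 _) (by positivity)

lemma hs_le (B : Bas) (hb0 : 0 < b) (y : V) : hs κ b g z y ≤ 1 / (32 * b) := by
  have h2 : hs κ b g z y ≤ 2 / (64 * b) :=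
    div_le_div_of_nonneg_right (B.d2 _) (by positivity)
  refine h2.trans (le_of_eq ?_)
  field_simp
  norm_num

lemma F2_c1 (B : Bas) (h : LF κ R x f m W g) (hρ : 0 < ρ) (hb0 : 0 < b) (z : V) (r' : ℝ) :
    ContDiff ℝ 1 (F2 κ ρ b g x z r') :=
  (HH_c1 B h hb0 z).mul (contDiff_const.sub (PS_c1 B h hρ r'))

lemma F2_fd (B : Bas) (h : LF κ R x f m W g) (hρ : 0 < ρ) (hb0 : 0 < b) (z : V) (r' : ℝ)
    (y n : V) : fderiv ℝ (F2 κ ρ b g x z r') y n
      = (1 - PS κ ρ g x r' y) * (hs κ b g z y * fderiv ℝ (ww κ b g z) y n)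
        - HH κ b g z y * (ps κ ρ g x r' y * fderiv ℝ (uu κ ρ g x) y n) := by
  have h1 : HasFDerivAt (HH κ b g z) (fderiv ℝ (HH κ b g z) y) y :=
    ((HH_c1 B h hb0 z).differentiable one_ne_zero y).hasFDerivAt
  have h2 : HasFDerivAt (PS κ ρ g x r') (fderiv ℝ (PS κ ρ g x r') y) y :=
    ((PS_c1 B h hρ r').differentiable one_ne_zero y).hasFDerivAt
  have h3 : HasFDerivAt (F2 κ ρ b g x z r') _ y := h1.mul (h2.const_sub 1)
  have h4 : fderiv ℝ (HH κ b g z) y n = hs κ b g z y * fderiv ℝ (ww κ b g z) y n :=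
    comp_fd B (ww_c1 B h hb0 z) _ _ y n
  rw [h3.fderiv]
  show HH κ b g z y * (-fderiv ℝ (PS κ ρ g x r') y n)
    + (1 - PS κ ρ g x r' y) * fderiv ℝ (HH κ b g z) y n = _
  rw [h4, PS_fd B h hρ]
  ring

lemma F2_int (B : Bas) (h : LF κ R x f m W g) (hκ : 0 < κ) (hκ1 : κ ≤ 1) (hρ : 0 < ρ)
    (hr : 0 < r) (hR : r ≤ R) (hρr : ρ ≤ r / 64) (hs1 : r / 64 ≤ s) (hs2 : s ≤ r / 32)
    (hz : ‖z - x‖ = s) (hu : uu κ ρ g x z = -(4 * (κ / 65536) * r)) (hb : b = κ / 524288 * r) :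
    ∫ y in closedBall x R, fderiv ℝ (F2 κ ρ b g x z (r / 256)) y (W y) = 0 := by
  have hb0 : 0 < b := by rw [hb]; positivity
  refine h.wd.div _ (F2_c1 B h hρ hb0 z _) ?_
  refine (closure_minimal (t := closedBall x r) (fun y hy => ?_) isClosed_closedBall).trans
    (closedBall_subset_closedBall hR)
  have h1 : HH κ b g z y ≠ 0 := fun h0 => hy (by
    show HH κ b g z y * _ = 0
    rw [h0, zero_mul])
  have h2 : PS κ ρ g x (r / 256) y ≠ 1 := fun h0 => hy (by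
    show _ * (1 - PS κ ρ g x (r / 256) y) = 0
    rw [h0, sub_self, mul_zero])
  rw [mem_closedBall, dist_eq_norm]
  exact (geo B hκ hρ hr hρr hs1 hs2 hz hu hb (HH_ne B hb0 h1)
    (PS_ne B hκ (by positivity) h2)).2.1

/-- comparison of the two families -/
lemma HT (B : Bas) (h : LF κ R x f m W g) (hκ : 0 < κ) (hκ1 : κ ≤ 1) (hρ : 0 < ρ)
    (hr : 0 < r) (hρr : ρ ≤ r / 64) (hs1 : r / 64 ≤ s) (hs2 : s ≤ r / 32)
    (hz : ‖z - x‖ = s) (hu : uu κ ρ g x z = -(4 * (κ / 65536) * r)) (hb : b = κ / 524288 * r)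
    (y : V) : HH κ b g z y * ps κ ρ g x (r / 256) y
      ≤ (TT κ ρ g x r y - TT κ ρ g x (r / 256) y) * ps κ ρ g x (r / 256) y := by
  have hb0 : 0 < b := by rw [hb]; positivity
  have hr' : 0 < r / 256 := by positivity
  have h0 := TT_mono (κ := κ) (ρ := ρ) (x := x) (g := g) B hκ hr hr' (by linarith) y
  have hp := ps_nonneg (κ := κ) (ρ := ρ) (x := x) (g := g) B hκ hr' y
  by_cases hc : HH κ b g z y * ps κ ρ g x (r / 256) y = 0
  · rw [hc]
    exact mul_nonneg (by linarith) hp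
  · have h1 := geo B hκ hρ hr hρr hs1 hs2 hz hu hb (HH_ne B hb0 (left_ne_zero_of_mul hc))
      (ps_ne B hκ hr' (right_ne_zero_of_mul hc))
    obtain ⟨-, -, h2, h3⟩ := h1
    have h4 : TT κ ρ g x r y = 1 := by
      refine B.hi _ ?_
      rw [one_le_div (by positivity)]
      linarith
    have h5 : TT κ ρ g x (r / 256) y = 0 := by
      refine B.lo _ ?_
      refine div_nonpos_of_nonpos_of_nonneg ?_ (by positivity)
      linarith
    rw [h4, h5, sub_zero]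
    exact mul_le_mul_of_nonneg_right (B.s1 _) hp

/-- the lower bound for the flux of the second family -/
noncomputable def GG (κ ρ b : ℝ) (g : V → ℝ) (x z : V) (r' : ℝ) (f : V → ℝ) (y : V) : ℝ :=
  (1 - PS κ ρ g x r' y) * hs κ b g z y * (κ / 4 * f y)

lemma point2 (B : Bas) (h : LF κ R x f m W g) (hκ : 0 < κ) (hρ : 0 < ρ) {r' : ℝ} (hr' : 0 < r')
    (hb0 : 0 < b) {y : V} (hy : y ∈ closedBall x R) :
    GG κ ρ b g x z r' f y - (1 - PS κ ρ g x r' y) * hs κ b g z y * m y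
        - fderiv ℝ (F2 κ ρ b g x z r') y (W y)
      ≤ HH κ b g z y * ps κ ρ g x r' y * DD κ ρ g x W m y := by
  rw [F2_fd B h hρ hb0, GG]
  have h1 : (κ - 3 * κ / 4) * f y ≤ fderiv ℝ (ww κ b g z) y (W y) + m y :=
    U_lo B h (c := 3 * κ / 4) (by linarith) hb0 z hy
  have e1 : fderiv ℝ (uu κ ρ g x) y (W y) = DD κ ρ g x W m y - m y := by
    unfold DD
    ring
  rw [e1]
  have h2 : PS κ ρ g x r' y ≤ 1 := B.s1 _
  have h3 : 0 ≤ (1 - PS κ ρ g x r' y) * hs κ b g z y :=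
    mul_nonneg (by linarith) (hs_nonneg B hb0 y)
  have h4 : 0 ≤ HH κ b g z y * (ps κ ρ g x r' y * m y) :=
    mul_nonneg (B.s0 _) (mul_nonneg (ps_nonneg B hκ hr' y) (h.m0 y))
  have h5 := mul_le_mul_of_nonneg_left h1 h3
  nlinarith [h4, h5]

lemma GG_cont (B : Bas) (h : LF κ R x f m W g) (hρ : 0 < ρ) (hb0 : 0 < b) (z : V) (r' : ℝ) :
    Continuous (GG κ ρ b g x z r' f) :=
  ((continuous_const.sub (PS_c1 B h hρ r').continuous).mul (hs_cont B h hb0 z)).mul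
    (continuous_const.mul h.fc)

lemma GG_nonneg (B : Bas) (h : LF κ R x f m W g) (hκ : 0 < κ) (hb0 : 0 < b) (r' : ℝ) {y : V}
    (hy : y ∈ closedBall x R) : 0 ≤ GG κ ρ b g x z r' f y := by
  have h2 : PS κ ρ g x r' y ≤ 1 := B.s1 _
  have h3 := f_nonneg h hy
  exact mul_nonneg (mul_nonneg (by linarith) (hs_nonneg B hb0 y)) (by positivity)

/-- near the point `z` -/
lemma GG_lo (B : Bas) (h : LF κ R x f m W g) (hκ : 0 < κ) (hκ1 : κ ≤ 1) (hρ : 0 < ρ)
    (hr : 0 < r) (hu : uu κ ρ g x z = -(4 * (κ / 65536) * r)) (hb : b = κ / 524288 * r) {y : V}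
    (hy : y ∈ closedBall x R) (hyz : y ∈ closedBall z b) :
    512 / r * f y ≤ GG κ ρ b g x z (r / 256) f y := by
  have hb0 : 0 < b := by rw [hb]; positivity
  have hr' : 0 < r / 256 := by positivity
  have hf := f_nonneg h hy
  rw [mem_closedBall, dist_eq_norm] at hyz
  have h1 : len (y - z) ≤ 2 * b := len_two _ hb0.le hyz
  have h2 := B.gb z b hb0 y hyz
  have h3 : 0 ≤ ds z b y := (norm_nonneg _).trans (B.gn z b hb0 y)
  have h4 := abs_le.1 ((h.lip y z).trans h1)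
  have h5 := (abs_le.1 ((B.gi x ρ hρ y z).trans h1)).1
  -- the function `u` is negative
  have e1 : uu κ ρ g x y - uu κ ρ g x z
      = g y - g z - κ / 2 * (ds x ρ y - ds x ρ z) := by
    unfold uu
    ring
  have h6 : uu κ ρ g x y ≤ 0 := by
    have h7 : κ / 2 * -(ds x ρ y - ds x ρ z) ≤ κ / 2 * (2 * b) :=
      mul_le_mul_of_nonneg_left (by linarith) (by linarith)
    have h8 : κ * b ≤ b := mul_le_of_le_one_left hb0.le hκ1
    have h9 : 4 * (κ / 65536) * r = 32 * b := by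
      rw [hb]
      ring
    rw [hu, h9] at e1
    linarith
  have h7 : PS κ ρ g x (r / 256) y = 0 := by
    refine B.lo _ ?_
    refine div_nonpos_of_nonpos_of_nonneg ?_ (by positivity)
    have : 0 < κ * (r / 256) / 64 := by positivity
    linarith
  -- the function `w` is small
  have e2 : ww κ b g z y = g y - g z - 3 * κ / 4 * ds z b y := rfl
  have h8 : 3 * κ / 4 * ds z b y ≤ 3 / 4 * (2 * b) := by
    have : κ * ds z b y ≤ 1 * (2 * b) := mul_le_mul hκ1 h2 h3 zero_le_one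
    linarith
  have h9 : 0 ≤ 3 * κ / 4 * ds z b y := by positivity
  have h10 : (1 : ℝ) / 4 ≤ (ww κ b g z y + 32 * b) / (64 * b) := by
    rw [le_div_iff₀ (by positivity)]
    linarith
  have h11 : (ww κ b g z y + 32 * b) / (64 * b) ≤ 3 / 4 := by
    rw [div_le_iff₀ (by positivity)]
    linarith
  have h12 : (1 : ℝ) / 4 ≤ stp' ((ww κ b g z y + 32 * b) / (64 * b)) := by
    have h13 : ∀ t : ℝ, 1 / 4 ≤ t → t ≤ 3 / 4 → 1 / 4 ≤ stp' t := fun t h13 h14 => by
      have h15 : max 0 (min 1 t) = t := by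
        rw [min_eq_right (by linarith), max_eq_right (by linarith)]
      rw [stp', h15]
      nlinarith
    exact h13 _ h10 h11
  have h13 : 1 / (256 * b) ≤ hs κ b g z y := by
    have h14 : (1 : ℝ) / 4 / (64 * b) ≤ hs κ b g z y :=
      div_le_div_of_nonneg_right h12 (by positivity)
    refine le_trans (le_of_eq ?_) h14
    field_simp
    norm_num
  have h14 : 1 / (256 * b) * (κ / 4 * f y) ≤ hs κ b g z y * (κ / 4 * f y) :=
    mul_le_mul_of_nonneg_right h13 (by positivity)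
  rw [GG, h7, sub_zero, one_mul]
  refine le_trans (le_of_eq ?_) h14
  rw [hb]
  field_simp
  ring

/-- integral of a bounded multiple of the remainder -/
lemma int_km {k : V → ℝ} (hk : Continuous k) {e : ℝ} (hke : ∀ y, k y ≤ e)
    (hkz : ∀ y, y ∉ closedBall x r → k y = 0) (hm : Continuous m) (hm0 : ∀ y, 0 ≤ m y)
    (hR : r ≤ R) : ∫ y in closedBall x R, k y * m y ≤ e * ∫ y in closedBall x r, m y := by
  have h1 : ∫ y in closedBall x R, k y * m y = ∫ y in closedBall x r, k y * m y := by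
    refine setIntegral_eq_of_subset_of_forall_sdiff_eq_zero measurableSet_closedBall
      (closedBall_subset_closedBall hR) fun y hy => ?_
    rw [hkz y hy.2, zero_mul]
  rw [h1, ← integral_const_mul]
  refine setIntegral_mono_on ?_ ?_ measurableSet_closedBall fun y _ =>
    mul_le_mul_of_nonneg_right (hke y) (hm0 y)
  · exact (hk.mul hm).continuousOn.integrableOn_compact (isCompact_closedBall x r)
  · exact (continuous_const.mul hm).continuousOn.integrableOn_compact (isCompact_closedBall x r)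

end two

theorem tf (hB : StmBas) : StmTF := by
  intro κ ρ R r s x z f m W g hκ hκ1 hρ h hr hR hρr hs1 hs2 hz hu
  have B := bas hB
  obtain ⟨b, hb⟩ : ∃ b : ℝ, b = κ / 524288 * r := ⟨_, rfl⟩
  rw [← hb]
  have hb0 : 0 < b := by rw [hb]; positivity
  have hr' : 0 < r / 256 := by positivity
  have hrr : r / 256 ≤ r := by linarith
  have hκr : 0 < κ * r := mul_pos hκ hr
  have io : ∀ {φ : V → ℝ}, Continuous φ → IntegrableOn φ (closedBall x R) := fun hφ =>
    hφ.continuousOn.integrableOn_compact (isCompact_closedBall x R)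
  -- continuity
  have cD : Continuous (DD κ ρ g x W m) := (cont_fd (uu_c1 B h hρ) h.wd.cont).add h.mc
  have cP : ∀ r, Continuous (pr κ ρ g x W m r) := fun r =>
    (TT_c1 B h hρ r).continuous.mul ((ps_cont B h hρ r).mul cD)
  have c1 : Continuous (fun y => fderiv ℝ (F1 κ ρ g x r (r / 256)) y (W y)) :=
    cont_fd (F1_c1 B h hρ _ _) h.wd.cont
  have c2 : Continuous (fun y => fderiv ℝ (F2 κ ρ b g x z (r / 256)) y (W y)) :=
    cont_fd (F2_c1 B h hρ hb0 z _) h.wd.cont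
  have cG := GG_cont B h hρ hb0 z (r / 256)
  obtain ⟨k, hk⟩ : ∃ k : V → ℝ, k = fun y => k1 κ ρ g x r (r / 256) y
      + (1 - PS κ ρ g x (r / 256) y) * hs κ b g z y := ⟨_, rfl⟩
  have ck : Continuous k := by
    rw [hk]
    exact (k1_cont B h hρ _ _).add
      ((continuous_const.sub (PS_c1 B h hρ _).continuous).mul (hs_cont B h hb0 z))
  have q0 : ∀ y, 0 ≤ (1 - PS κ ρ g x (r / 256) y) * hs κ b g z y := fun y => by
    have h2 : PS κ ρ g x (r / 256) y ≤ 1 := B.s1 _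
    exact mul_nonneg (by linarith) (hs_nonneg B hb0 y)
  have q1 : ∀ y, (1 - PS κ ρ g x (r / 256) y) * hs κ b g z y ≤ 1 / (32 * b) := fun y => by
    have h2 : 0 ≤ PS κ ρ g x (r / 256) y := B.s0 _
    exact (mul_le_of_le_one_left (hs_nonneg B hb0 y) (by linarith)).trans (hs_le B hb0 y)
  have k0 : ∀ y, 0 ≤ k y := fun y => by
    rw [hk]
    exact add_nonneg (k1_nonneg B hκ hr hr' hrr y) (q0 y)
  have ke : ∀ y, k y ≤ 49184 / (κ * r) := fun y => by
    have h1 := k1_le (κ := κ) (ρ := ρ) (x := x) (g := g) B hκ hr hr' hrr y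
    have h2 := q1 y
    have h3 : 128 / (κ * (r / 256)) + 32 / (κ * r) + 1 / (32 * b) = 49184 / (κ * r) := by
      rw [hb]
      field_simp
      norm_num
    rw [hk, ← h3]
    exact add_le_add h1 h2
  have kz : ∀ y, y ∉ closedBall x r → k y = 0 := fun y hy => by
    rw [hk]
    show k1 κ ρ g x r (r / 256) y + (1 - PS κ ρ g x (r / 256) y) * hs κ b g z y = 0
    rw [k1_zero B hκ hρ hr hr' hrr hy, zero_add]
    by_contra hc
    refine hy ?_
    rw [mem_closedBall, dist_eq_norm]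
    exact (geo B hκ hρ hr hρr hs1 hs2 hz hu hb (hs_ne B hb0 (right_ne_zero_of_mul hc))
      (PS_ne B hκ hr' fun h0 => left_ne_zero_of_mul hc (by rw [h0, sub_self]))).2.1
  -- the pointwise inequality
  have pw : ∀ y ∈ closedBall x R, GG κ ρ b g x z (r / 256) f y - k y * m y
      - fderiv ℝ (F1 κ ρ g x r (r / 256)) y (W y) - fderiv ℝ (F2 κ ρ b g x z (r / 256)) y (W y)
      ≤ pr κ ρ g x W m r y - pr κ ρ g x W m (r / 256) y := fun y hy => by
    have h1 := point1 B h hκ hρ hr hr' hrr hy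
    have h2 := point2 (z := z) B h hκ hρ hr' hb0 hy
    have h3 := mul_le_mul_of_nonneg_right
      (HT B h hκ hκ1 hρ hr hρr hs1 hs2 hz hu hb y) (DD_nonneg B h hκ hρ hy)
    rw [hk]
    show _ - (k1 κ ρ g x r (r / 256) y + (1 - PS κ ρ g x (r / 256) y) * hs κ b g z y) * m y
      - _ - _ ≤ _
    linarith
  -- integration
  have i1 := F1_int B h hκ hρ hr hr' hrr hR
  have i2 := F2_int B h hκ hκ1 hρ hr hR hρr hs1 hs2 hz hu hb
  have ckm : Continuous (fun y => k y * m y) := ck.mul h.mc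
  have cA : Continuous (fun y => GG κ ρ b g x z (r / 256) f y - k y * m y) := cG.sub ckm
  have cB : Continuous (fun y => GG κ ρ b g x z (r / 256) f y - k y * m y
      - fderiv ℝ (F1 κ ρ g x r (r / 256)) y (W y)) := cA.sub c1
  have i3 : ∫ y in closedBall x R, (GG κ ρ b g x z (r / 256) f y - k y * m y
      - fderiv ℝ (F1 κ ρ g x r (r / 256)) y (W y) - fderiv ℝ (F2 κ ρ b g x z (r / 256)) y (W y))
      ≤ ∫ y in closedBall x R, (pr κ ρ g x W m r y - pr κ ρ g x W m (r / 256) y) :=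
    setIntegral_mono_on (io (cB.sub c2))
      (io ((cP r).sub (cP (r / 256)))) measurableSet_closedBall pw
  rw [integral_sub (io cB) (io c2), integral_sub (io cA) (io c1), integral_sub (io cG) (io ckm),
    i1, i2, sub_zero, sub_zero, integral_sub (io (cP r)) (io (cP (r / 256)))] at i3
  have i4 := int_km (R := R) ck ke kz h.mc h.m0 hR
  have hzR : closedBall z b ⊆ closedBall x R := fun y hy => by
    rw [mem_closedBall, dist_eq_norm] at hy ⊢
    have : y - x = (y - z) + (z - x) := by abel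
    rw [this]
    refine (norm_add_le _ _).trans ?_
    rw [hz]
    have h8 : κ * r ≤ r := mul_le_of_le_one_left hr.le hκ1
    rw [hb] at hy
    linarith
  have i5 : ∫ y in closedBall z b, GG κ ρ b g x z (r / 256) f y
      ≤ ∫ y in closedBall x R, GG κ ρ b g x z (r / 256) f y :=
    setIntegral_mono_set (io cG)
      ((ae_restrict_iff' measurableSet_closedBall).2
        (Filter.Eventually.of_forall fun y hy => GG_nonneg B h hκ hb0 _ hy))
      (Filter.Eventually.of_forall hzR)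
  have i6 : ∫ y in closedBall z b, 512 / r * f y
      ≤ ∫ y in closedBall z b, GG κ ρ b g x z (r / 256) f y :=
    setIntegral_mono_on
      ((continuous_const.mul h.fc).continuousOn.integrableOn_compact (isCompact_closedBall z b))
      (cG.continuousOn.integrableOn_compact (isCompact_closedBall z b))
      measurableSet_closedBall
      fun y hy => GG_lo B h hκ hκ1 hρ hr hu hb (hzR hy) hy
  rw [integral_const_mul] at i6
  have i7 : 0 ≤ ∫ y in closedBall x r, m y := setIntegral_nonneg measurableSet_closedBall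
    fun y _ => h.m0 y
  have i8 : 512 / r * ∫ y in closedBall z b, f y
      ≤ (AA κ ρ R g x W m r - AA κ ρ R g x W m (r / 256))
        + 49184 / (κ * r) * ∫ y in closedBall x r, m y := by
    unfold AA
    linarith
  have i9 := mul_le_mul_of_nonneg_left i8 (show (0 : ℝ) ≤ r / 512 by positivity)
  have e1 : r / 512 * (512 / r * ∫ y in closedBall z b, f y) = ∫ y in closedBall z b, f y := by
    field_simp
  have e2 : r / 512 * (49184 / (κ * r) * ∫ y in closedBall x r, m y)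
      = (49184 / 512) / κ * ∫ y in closedBall x r, m y := by
    field_simp
  rw [mul_add, e1, e2] at i9
  refine i9.trans (add_le_add_right (mul_le_mul_of_nonneg_right ?_ i7) _)
  exact div_le_div_of_nonneg_right (by norm_num) hκ.le

end Pool.Agent.Q81.VL
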